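import Mathlib
import Pool.Agent.W785.FD.Stms

/-!
Project FD (helper785), part LSC: outer regularity of the capacity (helper701).
-/

set_option autoImplicit false

open MeasureTheory Metric Set Filter
open scoped ENNReal NNReal Topology

namespace Pool.Agent.W701.FD

open Pool.Agent.W785.FD

universe u
variable {X : Type u} [MetricSpace X]

/-! ### Curves -/

/-- constant curve -/
def cst (y : X) : Crv X := ⟨0, le_rfl, fun _ => y, LipschitzWith.const' y⟩

theorem int_cst (y : X) (g : X → ℝ≥0∞) : (cst y).int g = 0 := by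
  unfold Crv.int cst
  simp

/-- reversed curve -/
def rev (c : Crv X) : Crv X :=
  ⟨c.l, c.nonneg, fun t => c.γ (c.l - t), by
    have h : LipschitzWith 1 (fun t : ℝ => c.l - t) := by
      apply LipschitzWith.of_dist_le_mul
      intro a b
      rw [Real.dist_eq, Real.dist_eq, NNReal.coe_one, one_mul]
      have e : c.l - a - (c.l - b) = -(a - b) := by ring
      rw [e, abs_neg]
    have h2 := c.lip.comp h
    rw [mul_one] at h2
    exact h2⟩

theorem int_rev (c : Crv X) (g : X → ℝ≥0∞) : (rev c).int g = c.int g := by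
  unfold Crv.int rev
  simp only
  rw [← lintegral_indicator measurableSet_Icc, ← lintegral_indicator measurableSet_Icc]
  rw [← lintegral_sub_left_eq_self (μ := (volume : Measure ℝ))
    ((Icc 0 c.l).indicator fun t => g (c.γ t)) c.l]
  refine lintegral_congr fun t => ?_
  by_cases ht : t ∈ Icc 0 c.l
  · have ht' : c.l - t ∈ Icc 0 c.l := ⟨by linarith [ht.2], by linarith [ht.1]⟩
    rw [indicator_of_mem ht, indicator_of_mem ht']
  · have ht' : c.l - t ∉ Icc 0 c.l := fun h => ht ⟨by linarith [h.2], by linarith [h.1]⟩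
    rw [indicator_of_notMem ht, indicator_of_notMem ht']

/-- concatenation -/
noncomputable def cat (c c' : Crv X) (h : c.γ c.l = c'.γ 0) : Crv X :=
  ⟨c.l + c'.l, add_nonneg c.nonneg c'.nonneg, fun t => if t ≤ c.l then c.γ t else c'.γ (t - c.l), by
    have key : ∀ a b : ℝ, a ≤ b →
        dist (if a ≤ c.l then c.γ a else c'.γ (a - c.l)) (if b ≤ c.l then c.γ b else c'.γ (b - c.l))
          ≤ b - a := by
      intro a b hab
      have d1 : ∀ s t : ℝ, dist (c.γ s) (c.γ t) ≤ |s - t| := fun s t => by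
        have := c.lip.dist_le_mul s t
        simpa [Real.dist_eq] using this
      have d2 : ∀ s t : ℝ, dist (c'.γ s) (c'.γ t) ≤ |s - t| := fun s t => by
        have := c'.lip.dist_le_mul s t
        simpa [Real.dist_eq] using this
      by_cases ha : a ≤ c.l
      · by_cases hb : b ≤ c.l
        · rw [if_pos ha, if_pos hb]
          refine (d1 a b).trans (le_of_eq ?_)
          rw [abs_sub_comm, abs_of_nonneg (by linarith)]
        · rw [if_pos ha, if_neg hb]
          have hb' := not_le.mp hb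
          calc dist (c.γ a) (c'.γ (b - c.l)) ≤ dist (c.γ a) (c.γ c.l) + dist (c.γ c.l) (c'.γ (b - c.l)) :=
                dist_triangle _ _ _
            _ = dist (c.γ a) (c.γ c.l) + dist (c'.γ 0) (c'.γ (b - c.l)) := by rw [h]
            _ ≤ |a - c.l| + |0 - (b - c.l)| := add_le_add (d1 _ _) (d2 _ _)
            _ = b - a := by
                rw [abs_sub_comm, abs_of_nonneg (by linarith), zero_sub, abs_neg,
                  abs_of_nonneg (by linarith)]
                ring
      · have hb : ¬ b ≤ c.l := fun hb => ha (hab.trans hb)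
        rw [if_neg ha, if_neg hb]
        refine (d2 _ _).trans (le_of_eq ?_)
        rw [abs_sub_comm, abs_of_nonneg (by linarith)]
        ring
    apply LipschitzWith.of_dist_le_mul
    intro a b
    rw [NNReal.coe_one, one_mul, Real.dist_eq]
    rcases le_total a b with hab | hab
    · refine (key a b hab).trans (le_of_eq ?_)
      rw [abs_sub_comm, abs_of_nonneg (by linarith)]
    · rw [dist_comm]
      refine (key b a hab).trans (le_of_eq ?_)
      rw [abs_of_nonneg (by linarith)]⟩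

theorem int_cat (c c' : Crv X) (h : c.γ c.l = c'.γ 0) (g : X → ℝ≥0∞) :
    (cat c c' h).int g ≤ c.int g + c'.int g := by
  unfold Crv.int cat
  simp only
  have hU : Icc 0 (c.l + c'.l) ⊆ Icc 0 c.l ∪ Ioc c.l (c.l + c'.l) := by
    intro t ht
    by_cases h1 : t ≤ c.l
    · exact Or.inl ⟨ht.1, h1⟩
    · exact Or.inr ⟨not_le.mp h1, ht.2⟩
  refine (lintegral_mono_set hU).trans ?_
  refine (lintegral_union_le _ _ _).trans ?_
  refine add_le_add (le_of_eq ?_) ?_
  · refine setLIntegral_congr_fun measurableSet_Icc fun t ht => ?_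
    rw [if_pos ht.2]
  · have e1 : ∫⁻ t in Ioc c.l (c.l + c'.l), g (if t ≤ c.l then c.γ t else c'.γ (t - c.l))
        = ∫⁻ t in Ioc c.l (c.l + c'.l), g (c'.γ (t - c.l)) := by
      refine setLIntegral_congr_fun measurableSet_Ioc fun t ht => ?_
      rw [if_neg (not_le.mpr ht.1)]
    rw [e1, ← lintegral_indicator measurableSet_Ioc, ← lintegral_indicator measurableSet_Icc]
    rw [← lintegral_sub_right_eq_self (μ := (volume : Measure ℝ))
      ((Icc 0 c'.l).indicator fun t => g (c'.γ t)) c.l]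
    refine lintegral_mono fun t => ?_
    by_cases ht : t ∈ Ioc c.l (c.l + c'.l)
    · have ht' : t - c.l ∈ Icc 0 c'.l := ⟨by linarith [ht.1], by linarith [ht.2]⟩
      rw [indicator_of_mem ht, indicator_of_mem ht']
    · rw [indicator_of_notMem ht]; exact zero_le

/-- the distance function -/
noncomputable def V (g : X → ℝ≥0∞) (S : Set X) (y : X) : ℝ≥0∞ :=
  ⨅ (c : Crv X) (_ : c.γ 0 = y) (_ : c.γ c.l ∉ S), c.int g

theorem V_le (g : X → ℝ≥0∞) (S : Set X) (c : Crv X) (h : c.γ c.l ∉ S) : V g S (c.γ 0) ≤ c.int g :=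
  iInf_le_of_le c (iInf_le_of_le rfl (iInf_le_of_le h le_rfl))

theorem V_zero (g : X → ℝ≥0∞) (S : Set X) {y : X} (h : y ∉ S) : V g S y = 0 := by
  have := V_le g S (cst y) h
  rw [int_cst] at this
  exact le_antisymm this zero_le

theorem V_tri (g : X → ℝ≥0∞) (S : Set X) (c : Crv X) : V g S (c.γ 0) ≤ c.int g + V g S (c.γ c.l) := by
  conv_rhs => rw [V]
  rw [ENNReal.add_iInf]
  refine le_iInf fun c' => ?_
  by_cases h1 : c'.γ 0 = c.γ c.l
  · by_cases h2 : c'.γ c'.l ∉ S
    · simp only [h1, h2, iInf_pos, not_false_eq_true]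
      refine le_trans ?_ (int_cat c c' h1.symm g)
      have h3 : (cat c c' h1.symm).γ (cat c c' h1.symm).l ∉ S := by
        have : (cat c c' h1.symm).γ (cat c c' h1.symm).l = c'.γ c'.l := by
          unfold cat
          simp only
          rcases c'.nonneg.eq_or_lt with h0 | h0
          · rw [if_pos (by linarith), ← h0, add_zero, h1]
          · rw [if_neg (by linarith)]
            congr 1; ring
        rw [this]; exact h2
      have h4 := V_le g S _ h3
      have h5 : (cat c c' h1.symm).γ 0 = c.γ 0 := by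
        unfold cat
        simp only
        rw [if_pos c.nonneg]
      rwa [h5] at h4
    · simp only [h2, iInf_neg, not_false_eq_true, iInf_top, add_top, le_top]
  · simp [h1]

theorem V_tri' (g : X → ℝ≥0∞) (S : Set X) (c : Crv X) : V g S (c.γ c.l) ≤ c.int g + V g S (c.γ 0) := by
  have h := V_tri g S (rev c)
  have e1 : (rev c).γ 0 = c.γ c.l := by unfold rev; simp
  have e2 : (rev c).γ (rev c).l = c.γ 0 := by unfold rev; simp
  rwa [e1, e2, int_rev] at h

/-! ### Lower semicontinuity -/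

/-- first exit time -/
theorem exit (c : Crv X) (S : Set X) (hS : IsOpen S) (h : c.γ c.l ∉ S) :
    ∃ τ : ℝ, 0 ≤ τ ∧ τ ≤ c.l ∧ c.γ τ ∉ S ∧ ∀ t, 0 ≤ t → t < τ → c.γ t ∈ S := by
  set T : Set ℝ := {t | t ∈ Icc 0 c.l ∧ c.γ t ∉ S} with hT
  have hcl : IsClosed T :=
    isClosed_Icc.inter ((hS.isClosed_compl).preimage c.lip.continuous)
  have hne : T.Nonempty := ⟨c.l, ⟨c.nonneg, le_rfl⟩, h⟩
  have hbd : BddBelow T := ⟨0, fun t ht => ht.1.1⟩
  have hmem := hcl.csInf_mem hne hbd
  refine ⟨sInf T, hmem.1.1, hmem.1.2, hmem.2, ?_⟩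
  intro t ht0 ht
  by_contra hn
  have : t ∈ T := ⟨⟨ht0, ht.le.trans hmem.1.2⟩, hn⟩
  exact absurd (csInf_le hbd this) (not_le.mpr ht)

/-- the exit time is bounded in terms of the integral -/
theorem exit_le (c : Crv X) (S : Set X) (g : X → ℝ≥0∞) (d : ℝ) (hd : 0 < d)
    (hg : ∀ y ∈ S, ENNReal.ofReal d ≤ g y) (s : ℝ≥0∞) (hs : s ≠ ∞) (hint : c.int g ≤ s) (τ : ℝ)
    (h0 : 0 ≤ τ) (h1 : τ ≤ c.l) (h2 : ∀ t, 0 ≤ t → t < τ → c.γ t ∈ S) : τ ≤ s.toReal / d := by
  have e1 : ENNReal.ofReal (d * τ) ≤ s := by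
    refine le_trans ?_ hint
    unfold Crv.int
    calc ENNReal.ofReal (d * τ) = ∫⁻ _ in Ico 0 τ, ENNReal.ofReal d := by
          rw [setLIntegral_const, Real.volume_Ico, sub_zero, ENNReal.ofReal_mul hd.le]
      _ ≤ ∫⁻ t in Ico 0 τ, g (c.γ t) :=
          setLIntegral_mono' measurableSet_Ico fun t ht => hg _ (h2 t ht.1 ht.2)
      _ ≤ ∫⁻ t in Icc 0 c.l, g (c.γ t) :=
          lintegral_mono_set fun t ht => ⟨ht.1, ht.2.le.trans h1⟩
  rw [le_div_iff₀ hd, mul_comm]
  have := ENNReal.toReal_mono hs e1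
  rwa [ENNReal.toReal_ofReal (by positivity)] at this

theorem V_lim [ProperSpace X] [MeasurableSpace X] [BorelSpace X] (g : X → ℝ≥0∞)
    (hg : LowerSemicontinuous g) (S : Set X) (hS : IsOpen S) (d : ℝ) (hd : 0 < d)
    (hgS : ∀ y ∈ S, ENNReal.ofReal d ≤ g y) (y : X) (yk : ℕ → X) (hy : Tendsto yk atTop (𝓝 y))
    (hyb : ∀ k, dist (yk k) y ≤ 1) (c : ℕ → Crv X) (h0 : ∀ k, (c k).γ 0 = yk k)
    (h1 : ∀ k, (c k).γ (c k).l ∉ S) (s : ℝ≥0∞) (hs : s ≠ ∞) (hint : ∀ k, (c k).int g ≤ s) :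
    V g S y ≤ s := by
  choose τ hτ0 hτ1 hτ2 hτ3 using fun k => exit (c k) S hS (h1 k)
  have hτM : ∀ k, τ k ≤ s.toReal / d := fun k =>
    exit_le (c k) S g d hd hgS s hs (hint k) (τ k) (hτ0 k) (hτ1 k) (hτ3 k)
  set M : ℝ := s.toReal / d with hM
  have hM0 : 0 ≤ M := by positivity
  have lipk : ∀ k, LipschitzWith 1 (fun t : Icc (0 : ℝ) M => (c k).γ (min (t : ℝ) (τ k))) := by
    intro k
    have a1 : LipschitzWith 1 (fun t : Icc (0 : ℝ) M => min (t : ℝ) (τ k)) :=
      (LipschitzWith.subtype_val _).min_const _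
    have a2 := (c k).lip.comp a1
    rw [mul_one] at a2
    exact a2
  set F : ℕ → BoundedContinuousFunction (Icc (0 : ℝ) M) X := fun k =>
    BoundedContinuousFunction.mkOfCompact ⟨_, (lipk k).continuous⟩ with hF
  have hFa : ∀ k (t : Icc (0 : ℝ) M), F k t = (c k).γ (min (t : ℝ) (τ k)) := fun k t => rfl
  set A : Set (BoundedContinuousFunction (Icc (0 : ℝ) M) X) :=
    {f | (∀ a b, dist (f a) (f b) ≤ dist a b) ∧ ∀ a, f a ∈ closedBall y (M + 1)} with hA
  have hAc : IsClosed A := by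
    have b1 : IsClosed {f : BoundedContinuousFunction (Icc (0 : ℝ) M) X |
        ∀ a b, dist (f a) (f b) ≤ dist a b} := by
      simp only [ofPred_forall]
      refine isClosed_iInter fun a => isClosed_iInter fun b => ?_
      exact isClosed_le (((BoundedContinuousFunction.lipschitz_eval_const a).continuous).dist
        ((BoundedContinuousFunction.lipschitz_eval_const b).continuous)) continuous_const
    have b2 : IsClosed {f : BoundedContinuousFunction (Icc (0 : ℝ) M) X |
        ∀ a, f a ∈ closedBall y (M + 1)} := by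
      simp only [ofPred_forall]
      refine isClosed_iInter fun a => ?_
      exact isClosed_closedBall.preimage ((BoundedContinuousFunction.lipschitz_eval_const a).continuous)
    exact b1.inter b2
  have hlipA : ∀ f : A, LipschitzWith 1 (f : BoundedContinuousFunction (Icc (0 : ℝ) M) X) := fun f =>
    LipschitzWith.of_dist_le_mul fun a b => by
      rw [NNReal.coe_one, one_mul]; exact f.2.1 a b
  have hcomp : IsCompact A := by
    refine BoundedContinuousFunction.arzela_ascoli₂ (closedBall y (M + 1)) (isCompact_closedBall _ _) A hAc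
      (fun f x hf => hf.2 x) ?_
    exact (LipschitzWith.uniformEquicontinuous _ 1 hlipA).equicontinuous
  have hFA : ∀ k, F k ∈ A := by
    intro k
    refine ⟨fun a b => ?_, fun a => ?_⟩
    · have := (lipk k).dist_le_mul a b
      rw [NNReal.coe_one, one_mul] at this
      exact this
    · rw [mem_closedBall, hFa]
      have b1 : dist ((c k).γ (min (a : ℝ) (τ k))) ((c k).γ 0) ≤ M := by
        have := (c k).lip.dist_le_mul (min (a : ℝ) (τ k)) 0
        rw [NNReal.coe_one, one_mul, Real.dist_eq, sub_zero, abs_of_nonneg (le_min a.2.1 (hτ0 k))] at this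
        exact this.trans ((min_le_right _ _).trans (hτM k))
      rw [h0] at b1
      exact (dist_triangle _ (yk k) _).trans (add_le_add b1 (hyb k))
  obtain ⟨⟨f, l⟩, ⟨hfA, hl⟩, φ, hφ, hlim⟩ := (hcomp.prod (isCompact_Icc (a := (0 : ℝ)) (b := M))).tendsto_subseq
    (x := fun k => (F k, τ k)) (fun k => ⟨hFA k, hτ0 k, hτM k⟩)
  have hFlim : Tendsto (fun k => F (φ k)) atTop (𝓝 f) := (continuous_fst.tendsto _).comp hlim
  have hτlim : Tendsto (fun k => τ (φ k)) atTop (𝓝 l) := (continuous_snd.tendsto _).comp hlim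
  have hpt : ∀ t : Icc (0 : ℝ) M, Tendsto (fun k => F (φ k) t) atTop (𝓝 (f t)) := fun t =>
    ((BoundedContinuousFunction.lipschitz_eval_const t).continuous.tendsto f).comp hFlim
  have hyφ : Tendsto (fun k => yk (φ k)) atTop (𝓝 y) := hy.comp hφ.tendsto_atTop
  -- the limit curve
  have hlipf : LipschitzWith 1 (fun t : ℝ => f (projIcc 0 M hM0 t)) := by
    have a2 := (hlipA ⟨f, hfA⟩).comp (LipschitzWith.projIcc hM0)
    rw [mul_one] at a2
    exact a2
  have hl' : l ∈ Icc (0 : ℝ) M := hl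
  set cc : Crv X := ⟨l, hl'.1, fun t => f (projIcc 0 M hM0 t), hlipf⟩ with hcc
  have hproj : ∀ t (ht : t ∈ Icc (0 : ℝ) M), cc.γ t = f ⟨t, ht⟩ := by
    intro t ht
    show f (projIcc 0 M hM0 t) = _
    rw [projIcc_of_mem hM0 ht]
  have hc0 : cc.γ 0 = y := by
    rw [hproj 0 ⟨le_rfl, hM0⟩]
    have b1 := hpt ⟨0, ⟨le_rfl, hM0⟩⟩
    have b2 : (fun k => F (φ k) ⟨0, ⟨le_rfl, hM0⟩⟩) = fun k => yk (φ k) := by
      funext k
      rw [hFa, ← h0 (φ k), min_eq_left (hτ0 _)]
    rw [b2] at b1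
    exact tendsto_nhds_unique b1 hyφ
  have hcl : cc.γ cc.l ∉ S := by
    have e : cc.γ cc.l = f ⟨l, hl'⟩ := hproj l hl'
    rw [e]
    have b1 : Tendsto (fun k => (c (φ k)).γ (τ (φ k))) atTop (𝓝 (f ⟨l, hl'⟩)) := by
      rw [tendsto_iff_dist_tendsto_zero]
      have b2 : Tendsto (fun k => |l - τ (φ k)| + dist (F (φ k) ⟨l, hl'⟩) (f ⟨l, hl'⟩)) atTop (𝓝 (0 + 0)) := by
        refine Tendsto.add ?_ ((tendsto_iff_dist_tendsto_zero).mp (hpt _))
        have : Tendsto (fun k => |l - τ (φ k)|) atTop (𝓝 |l - l|) := (tendsto_const_nhds.sub hτlim).abs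
        simpa using this
      rw [add_zero] at b2
      refine squeeze_zero (fun _ => dist_nonneg) (fun k => ?_) b2
      refine (dist_triangle _ (F (φ k) ⟨l, hl'⟩) _).trans (add_le_add ?_ le_rfl)
      rw [hFa]
      have b3 := (c (φ k)).lip.dist_le_mul (τ (φ k)) (min l (τ (φ k)))
      rw [NNReal.coe_one, one_mul, Real.dist_eq] at b3
      refine b3.trans ?_
      rcases le_total l (τ (φ k)) with h | h
      · rw [min_eq_left h, abs_sub_comm]
      · rw [min_eq_right h, sub_self, abs_zero]; exact abs_nonneg _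
    have b4 : ∀ᶠ k in atTop, (c (φ k)).γ (τ (φ k)) ∈ Sᶜ := Eventually.of_forall fun k => hτ2 (φ k)
    exact hS.isClosed_compl.mem_of_tendsto b1 b4
  -- Fatou
  have hfatou : cc.int g ≤ s := by
    set ψ : ℕ → ℝ → ℝ≥0∞ := fun k => (Icc 0 (τ (φ k))).indicator fun t => g ((c (φ k)).γ t) with hψ
    have m1 : ∀ k, Measurable (ψ k) := fun k =>
      (hg.measurable.comp (c (φ k)).lip.continuous.measurable).indicator measurableSet_Icc
    have m2 : ∀ k, ∫⁻ t, ψ k t ≤ s := by
      intro k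
      rw [hψ]
      simp only
      rw [lintegral_indicator measurableSet_Icc]
      refine le_trans ?_ (hint (φ k))
      exact lintegral_mono_set (Icc_subset_Icc_right (hτ1 _))
    have m3 : cc.int g ≤ ∫⁻ t, liminf (fun k => ψ k t) atTop := by
      unfold Crv.int
      have e : ∫⁻ t in Icc 0 cc.l, g (cc.γ t) = ∫⁻ t in Ico 0 cc.l, g (cc.γ t) :=
        setLIntegral_congr Ico_ae_eq_Icc.symm
      rw [e, ← lintegral_indicator measurableSet_Ico]
      refine lintegral_mono fun t => ?_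
      by_cases ht : t ∈ Ico 0 cc.l
      · rw [indicator_of_mem ht]
        have ht1 : t < l := ht.2
        have htM : t ∈ Icc (0 : ℝ) M := ⟨ht.1, ht1.le.trans hl'.2⟩
        have ev1 : ∀ᶠ k in atTop, t < τ (φ k) := hτlim.eventually (lt_mem_nhds ht1)
        refine le_of_forall_lt_imp_le_of_dense fun b hb => ?_
        refine le_liminf_of_le (by isBoundedDefault) ?_
        rw [hproj t htM] at hb
        have ev2 := (hpt ⟨t, htM⟩).eventually (hg _ b hb)
        filter_upwards [ev1, ev2] with k hk1 hk2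
        rw [hFa, min_eq_left hk1.le] at hk2
        rw [hψ]
        simp only
        have hk3 : t ∈ Icc 0 (τ (φ k)) := ⟨ht.1, hk1.le⟩
        rw [indicator_of_mem hk3]
        exact hk2.le
      · rw [indicator_of_notMem ht]; exact zero_le
    refine m3.trans ((lintegral_liminf_le m1).trans ?_)
    refine (liminf_le_liminf (Eventually.of_forall m2)).trans ?_
    rw [liminf_const]
  have := V_le g S cc hcl
  rw [hc0] at this
  exact this.trans hfatou

theorem V_lsc [ProperSpace X] [MeasurableSpace X] [BorelSpace X] (g : X → ℝ≥0∞)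
    (hg : LowerSemicontinuous g) (S : Set X) (hS : IsOpen S) (d : ℝ) (hd : 0 < d)
    (hgS : ∀ y ∈ S, ENNReal.ofReal d ≤ g y) : LowerSemicontinuous (V g S) := by
  rw [lowerSemicontinuous_iff_isClosed_preimage]
  intro s
  rcases eq_or_ne s ∞ with rfl | hs
  · simp
  refine isClosed_of_closure_subset fun y hy => ?_
  rw [mem_preimage, mem_Iic]
  refine ENNReal.le_of_forall_pos_le_add fun ε hε _ => ?_
  have h1 : ∀ k : ℕ, ∃ z, V g S z ≤ s ∧ dist y z < 1 / ((k : ℝ) + 1) := by
    intro k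
    obtain ⟨z, hz, hd⟩ := Metric.mem_closure_iff.mp hy (1 / ((k : ℝ) + 1)) (by positivity)
    exact ⟨z, hz, hd⟩
  choose yk hyk1 hyk2 using h1
  have h2 : ∀ k, ∃ c : Crv X, c.γ 0 = yk k ∧ c.γ c.l ∉ S ∧ c.int g ≤ s + ε := by
    intro k
    have h3 : V g S (yk k) < s + ε :=
      (hyk1 k).trans_lt (ENNReal.lt_add_right hs (by exact_mod_cast hε.ne'))
    unfold V at h3
    rw [iInf_lt_iff] at h3
    obtain ⟨c, hc⟩ := h3
    rw [iInf_lt_iff] at hc
    obtain ⟨hc1, hc⟩ := hc
    rw [iInf_lt_iff] at hc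
    obtain ⟨hc2, hc⟩ := hc
    exact ⟨c, hc1, hc2, hc.le⟩
  choose c hc1 hc2 hc3 using h2
  refine V_lim g hg S hS d hd hgS y yk ?_ ?_ c hc1 hc2 (s + ε) (by simp [hs]) hc3
  · rw [tendsto_iff_dist_tendsto_zero]
    refine squeeze_zero (fun _ => dist_nonneg) (fun k => ?_) tendsto_one_div_add_atTop_nhds_zero_nat
    rw [dist_comm]; exact (hyk2 k).le
  · intro k
    rw [dist_comm]
    refine (hyk2 k).le.trans ?_
    rw [div_le_one (by positivity)]
    have : (0 : ℝ) ≤ k := Nat.cast_nonneg k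
    linarith

/-! ### The main theorem -/

theorem min_aux (a b I : ℝ≥0∞) (h1 : a ≤ I + b) (h2 : b ≤ I + a) :
    ENNReal.ofReal |(min 1 a).toReal - (min 1 b).toReal| ≤ I := by
  rcases eq_or_ne I ∞ with rfl | hI
  · exact le_top
  have key : ∀ a b : ℝ≥0∞, a ≤ I + b → (min 1 a).toReal ≤ I.toReal + (min 1 b).toReal := by
    intro a b h
    have hb : min 1 b ≠ ∞ := ne_top_of_le_ne_top ENNReal.one_ne_top (min_le_left _ _)
    rw [← ENNReal.toReal_add hI hb]
    apply ENNReal.toReal_mono (by simp [hI, hb])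
    rcases le_total 1 b with h3 | h3
    · rw [min_eq_left h3]
      exact (min_le_left _ _).trans le_add_self
    · rw [min_eq_right h3]
      exact (min_le_right _ _).trans h
  have k1 := key a b h1
  have k2 := key b a h2
  apply ENNReal.ofReal_le_of_le_toReal
  rw [abs_le]
  constructor <;> linarith

theorem main {X : Type*} [MetricSpace X] [ProperSpace X] [MeasurableSpace X] [BorelSpace X]
    (μ : Measure X) (p D : ℝ) (hp : 1 < p) (hD : Dbl μ D) (h : S_STR μ p) : S_LSC μ p := by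
  intro A x r t hr hcap
  haveI : IsLocallyFiniteMeasure μ := ⟨fun x => ⟨ball x 1, ball_mem_nhds x one_pos, hD.fin x 1⟩⟩
  have hp0 : 0 < p := by linarith
  unfold capB at hcap
  simp only [iInf_lt_iff] at hcap
  obtain ⟨u0, hu1, hu2, hu3, hu4, hu5⟩ := hcap
  obtain ⟨g1, hg1, hg1t⟩ := h u0 t hu5
  obtain ⟨ε, hε0, hε⟩ : ∃ ε : ℝ≥0∞, ε ≠ 0 ∧ ∫⁻ y, g1 y ^ p ∂μ + ε < t := by
    obtain ⟨b, hb1, hb2⟩ := exists_between hg1t
    exact ⟨b - ∫⁻ y, g1 y ^ p ∂μ, (tsub_pos_of_lt hb1).ne', by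
      rw [add_tsub_cancel_of_le hb1.le]; exact hb2⟩
  obtain ⟨G, hG1, hG2, hG3⟩ := exists_le_lowerSemicontinuous_lintegral_ge μ (fun y => g1 y ^ p)
    (hg1.1.pow_const p) hε0
  have hGt : ∫⁻ y, G y ∂μ < t := hG3.trans_lt hε
  obtain ⟨b, hb1, hb2⟩ := exists_between hGt
  obtain ⟨c1, hc1, hc2⟩ := exists_between hb2
  have hbtop : b ≠ ∞ := ne_top_of_lt hb2
  have hctop : c1 ≠ ∞ := ne_top_of_lt hc2
  have hb0 : b ≠ 0 := (zero_le.trans_lt hb1).ne'
  -- the constant on the ball
  obtain ⟨e, he⟩ : ∃ e, e = b - ∫⁻ y, G y ∂μ := ⟨_, rfl⟩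
  have he0 : e ≠ 0 := by rw [he]; exact (tsub_pos_of_lt hb1).ne'
  have hetop : e ≠ ∞ := by rw [he]; exact ne_top_of_le_ne_top hbtop tsub_le_self
  have hμ : μ (ball x r) + 1 ≠ ∞ := by
    have := (hD.fin x r).ne
    simp [this]
  obtain ⟨δ, hδ⟩ : ∃ δ, δ = e / (μ (ball x r) + 1) := ⟨_, rfl⟩
  have hδ0 : δ ≠ 0 := by rw [hδ]; exact (ENNReal.div_pos he0 hμ).ne'
  have hδtop : δ ≠ ∞ := by
    rw [hδ]; exact (ENNReal.div_lt_top hetop (by simp)).ne
  have hδe : δ * μ (ball x r) ≤ e := by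
    calc δ * μ (ball x r) ≤ δ * (μ (ball x r) + 1) := by gcongr; exact le_self_add
      _ = e := by rw [hδ]; exact ENNReal.div_mul_cancel (by simp) hμ
  set H : X → ℝ≥0∞ := fun y => G y + (ball x r).indicator (fun _ => δ) y with hH
  have hHl : LowerSemicontinuous H := hG2.add (isOpen_ball.lowerSemicontinuous_indicator zero_le)
  have hHint : ∫⁻ y, H y ∂μ ≤ b := by
    rw [hH, lintegral_add_left hG2.measurable, lintegral_indicator measurableSet_ball, setLIntegral_const]
    calc ∫⁻ y, G y ∂μ + δ * μ (ball x r) ≤ ∫⁻ y, G y ∂μ + e := by gcongr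
      _ = b := by rw [he]; exact add_tsub_cancel_of_le hb1.le
  set g3 : X → ℝ≥0∞ := fun y => H y ^ (1 / p) with hg3
  have hg3l : LowerSemicontinuous g3 :=
    (ENNReal.continuous_rpow_const (y := 1 / p)).comp_lowerSemicontinuous hHl
      (ENNReal.monotone_rpow_of_nonneg (by positivity))
  have hg13 : ∀ y, g1 y ≤ g3 y := by
    intro y
    have e1 : g1 y = (g1 y ^ p) ^ (1 / p) := by
      rw [← ENNReal.rpow_mul, mul_one_div_cancel hp0.ne', ENNReal.rpow_one]
    rw [e1]
    exact ENNReal.rpow_le_rpow ((hG1 y).trans le_self_add) (by positivity)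
  have hdpos : δ ^ (1 / p) ≠ 0 := by
    rw [Ne, ENNReal.rpow_eq_zero_iff]
    rintro (h1 | h1)
    · exact hδ0 h1.1
    · exact hδtop h1.1
  have hdtop : δ ^ (1 / p) ≠ ∞ := ENNReal.rpow_ne_top_of_nonneg (by positivity) hδtop
  have hgS : ∀ y ∈ ball x r, ENNReal.ofReal (δ ^ (1 / p)).toReal ≤ g3 y := by
    intro y hy
    rw [ENNReal.ofReal_toReal hdtop]
    refine ENNReal.rpow_le_rpow ?_ (by positivity)
    rw [hH]
    simp only
    rw [indicator_of_mem hy]
    exact le_add_self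
  have hW := V_lsc g3 hg3l (ball x r) isOpen_ball _ (ENNReal.toReal_pos hdpos hdtop) hgS
  set W : X → ℝ≥0∞ := V g3 (ball x r) with hWdef
  -- the factor
  obtain ⟨κ, hκ⟩ : ∃ κ, κ = (c1 / b) ^ (1 / p) := ⟨_, rfl⟩
  have hcb : 1 < c1 / b := by
    rw [ENNReal.lt_div_iff_mul_lt (Or.inl hb0) (Or.inl hbtop), one_mul]; exact hc1
  have hκ1 : 1 < κ := by rw [hκ]; exact ENNReal.one_lt_rpow hcb (by positivity)
  have hκp : κ ^ p = c1 / b := by
    rw [hκ, ← ENNReal.rpow_mul, one_div_mul_cancel hp0.ne', ENNReal.rpow_one]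
  have hκtop : κ ≠ ∞ := by
    rw [hκ]
    exact ENNReal.rpow_ne_top_of_nonneg (by positivity) (ENNReal.div_lt_top hctop hb0).ne
  have hκ0 : κ ≠ 0 := (zero_lt_one.trans hκ1).ne'
  refine ⟨fun y => (min 1 (κ * W y)).toReal, fun y => κ * g3 y, {y | κ⁻¹ < W y}, ?_, ?_, ?_, ?_, ?_, ?_, ?_, ?_, ?_⟩
  · exact (measurable_const.min (hW.measurable.const_mul κ)).ennreal_toReal
  · intro y; exact ENNReal.toReal_nonneg
  · intro y
    have := ENNReal.toReal_mono ENNReal.one_ne_top (min_le_left 1 (κ * W y))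
    simpa using this
  · refine ⟨hg3l.measurable.const_mul κ, fun c => ?_⟩
    unfold CrvIneq
    have e1 : c.int (fun y => κ * g3 y) = κ * c.int g3 := by
      unfold Crv.int
      exact lintegral_const_mul κ (hg3l.measurable.comp c.lip.continuous.measurable)
    rw [e1]
    apply min_aux
    · rw [← mul_add]; gcongr; exact V_tri g3 _ c
    · rw [← mul_add]; gcongr; exact V_tri' g3 _ c
  · have e1 : ∀ y, (κ * g3 y) ^ p = κ ^ p * H y := by
      intro y
      rw [ENNReal.mul_rpow_of_nonneg _ _ hp0.le, hg3]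
      simp only
      rw [← ENNReal.rpow_mul, one_div_mul_cancel hp0.ne', ENNReal.rpow_one]
    simp_rw [e1]
    rw [lintegral_const_mul _ hHl.measurable, hκp]
    calc c1 / b * ∫⁻ y, H y ∂μ ≤ c1 / b * b := by gcongr
      _ = c1 := ENNReal.div_mul_cancel hb0 hbtop
      _ < t := hc2
  · exact hW.isOpen_preimage _
  · intro y hy
    have h1 : 1 ≤ W y := by
      rw [hWdef]
      unfold V
      refine le_iInf fun c => le_iInf fun hc0 => le_iInf fun hcl => ?_
      have h2 := hg1.2 c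
      unfold CrvIneq at h2
      rw [hc0, hu4 _ hcl, sub_zero] at h2
      have h3 : (1 : ℝ≥0∞) ≤ ENNReal.ofReal |u0 y| := by
        rw [ENNReal.one_le_ofReal]
        exact (hu3 y hy).trans (le_abs_self _)
      refine h3.trans (h2.trans ?_)
      unfold Crv.int
      exact lintegral_mono fun s => hg13 _
    exact lt_of_lt_of_le (ENNReal.inv_lt_one.mpr hκ1) h1
  · intro y hy
    have h1 : κ⁻¹ < W y := hy
    have h2 : 1 ≤ κ * W y := by
      calc (1 : ℝ≥0∞) = κ * κ⁻¹ := (ENNReal.mul_inv_cancel hκ0 hκtop).symm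
        _ ≤ κ * W y := by gcongr
    simp only
    rw [min_eq_left h2, ENNReal.toReal_one]
  · intro y hy
    have : W y = 0 := V_zero g3 _ hy
    simp [this]

end Pool.Agent.W701.FD
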